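import Mathlib
import Pool.Agent.T9h59.SR.Spec3
import Pool.Agent.H301R2.TR.Select

/-!
Piece P1 for helper59 (MP_a3a416_nt): the kernel modulo `p` of an integer matrix with independent rows.

Author: helper69.
-/

set_option autoImplicit false

namespace Pool.Agent.T9h69.SR

open Finset Matrix

/-- the kernel modulo `p` of a nonsingular integer matrix has at most `|det|` elements -/
theorem card_ker_le {ι : Type} [Fintype ι] [DecidableEq ι] (p : ℕ) [Fact p.Prime]
    (M : Matrix ι ι ℤ) (hM : M.det ≠ 0) :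
    Nat.card (LinearMap.ker (Matrix.toLin' (M.map (Int.cast : ℤ → ZMod p)))) ≤ M.det.natAbs := by
  classical
  set L : (ι → ℤ) →ₗ[ℤ] (ι → ℤ) := Matrix.toLin' M with hL
  set T : (ι → ZMod p) →ₗ[ZMod p] (ι → ZMod p) := Matrix.toLin' (M.map (Int.cast : ℤ → ZMod p)) with hT
  have hinj : Function.Injective L := by
    rw [← LinearMap.ker_eq_bot, LinearMap.ker_eq_bot']
    intro v hv
    rw [hL, Matrix.toLin'_apply] at hv
    exact Matrix.eq_zero_of_mulVec_eq_zero hM hv
  have h1 := Submodule.natAbs_det_equiv (LinearMap.range L) (LinearEquiv.ofInjective L hinj)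
  have h2 : ((LinearMap.range L).subtype ∘ₗ AddMonoidHom.toIntLinearMap
      (LinearEquiv.ofInjective L hinj : (ι → ℤ) →+ LinearMap.range L)) = L := by
    ext; rfl
  rw [h2, hL, LinearMap.det_toLin'] at h1
  rw [h1, ← hL]
  -- the kernel and the cokernel of `T`
  have h3 : Nat.card (LinearMap.ker T) = Nat.card ((ι → ZMod p) ⧸ LinearMap.range T) := by
    have e1 := Submodule.card_eq_card_quotient_mul_card (LinearMap.ker T)
    have e2 := Submodule.card_eq_card_quotient_mul_card (LinearMap.range T)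
    have e3 : Nat.card ((ι → ZMod p) ⧸ LinearMap.ker T) = Nat.card (LinearMap.range T) :=
      Nat.card_congr T.quotKerEquivRange.toEquiv
    have e4 : 0 < Nat.card (LinearMap.range T) := Nat.card_pos
    rw [e3] at e1
    nlinarith
  rw [h3]
  have hfin : Finite ((ι → ℤ) ⧸ LinearMap.range L) := by
    apply Nat.finite_of_card_ne_zero
    rw [← hL] at h1
    rw [← h1]
    exact Int.natAbs_ne_zero.mpr hM
  let c : (ι → ℤ) →+ (ι → ZMod p) :=
    { toFun := fun x i => (x i : ZMod p)
      map_zero' := by ext; simp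
      map_add' := by intro x y; ext; simp }
  let φ0 : (ι → ℤ) →ₗ[ℤ] ((ι → ZMod p) ⧸ LinearMap.range T) :=
    ((LinearMap.range T).mkQ.toAddMonoidHom.comp c).toIntLinearMap
  have hle : LinearMap.range L ≤ LinearMap.ker φ0 := by
    rintro _ ⟨x, rfl⟩
    rw [LinearMap.mem_ker]
    change (LinearMap.range T).mkQ (c (L x)) = 0
    rw [Submodule.mkQ_apply, Submodule.Quotient.mk_eq_zero]
    refine ⟨c x, ?_⟩
    ext i
    simp only [hT, hL, Matrix.toLin'_apply, Matrix.mulVec, dotProduct, Matrix.map_apply, c,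
      AddMonoidHom.coe_mk, ZeroHom.coe_mk, Int.cast_sum, Int.cast_mul]
  refine Nat.card_le_card_of_surjective ((LinearMap.range L).liftQ φ0 hle) ?_
  intro y
  obtain ⟨v, rfl⟩ := Submodule.mkQ_surjective _ y
  have hch : ∀ i, ∃ z : ℤ, (z : ZMod p) = v i := fun i => ZMod.intCast_surjective (v i)
  choose z hz using hch
  refine ⟨Submodule.mkQ _ z, ?_⟩
  change (LinearMap.range T).mkQ (c z) = _
  congr 1
  ext i
  exact hz i

theorem hadamard {ι : Type} [Fintype ι] [DecidableEq ι] (N : Matrix ι ι ℝ) :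
    |N.det| ≤ ∏ i, Real.sqrt (∑ j, N i j ^ 2) := by
  classical
  have : Fact (Module.finrank ℝ (EuclideanSpace ℝ ι) = Fintype.card ι) := ⟨by simp⟩
  set n := Fintype.card ι
  let eq : ι ≃ Fin n := Fintype.equivFin ι
  let b := (EuclideanSpace.basisFun ι ℝ).reindex eq
  let v : Fin n → EuclideanSpace ℝ ι := fun i => WithLp.toLp 2 (N (eq.symm i))
  have h1 := b.toBasis.orientation.abs_volumeForm_apply_le v
  rw [Orientation.volumeForm_robust b.toBasis.orientation b rfl] at h1
  have h2 : b.toBasis.det v = N.det := by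
    rw [Module.Basis.det_apply, ← Matrix.det_transpose, ← Matrix.det_submatrix_equiv_self eq.symm N]
    congr 1
  rw [h2] at h1
  refine h1.trans (le_of_eq ?_)
  rw [← Equiv.prod_comp eq.symm]
  apply Finset.prod_congr rfl
  intro i _
  rw [EuclideanSpace.norm_eq]
  congr 1
  apply Finset.sum_congr rfl
  intro j _
  simp [v]

theorem stP1 : Pool.Agent.T9h59.SR.StP1 := by
  intro p hp ι κ _ _ _ _ A hA
  classical
  obtain ⟨c, hc⟩ := Pool.Agent.H301R2.TR.exists_det_ne_zero (F := ℚ) (J := ι) (C := κ)
    (fun i j => (A i j : ℚ)) (by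
      intro q hq
      have := Fintype.linearIndependent_iff.mp hA q (by
        ext j
        simpa using hq j)
      exact funext this)
  set M : Matrix ι ι ℤ := Matrix.of (fun j i => A i (c j)) with hMdef
  have hM : M.det ≠ 0 := by
    intro h
    apply hc
    have h1 : (Matrix.det (fun j i => (A j (c i) : ℚ))) = ((M.det : ℤ) : ℚ) := by
      rw [← Matrix.det_transpose M, Int.cast_det]
      rfl
    rw [h1, h, Int.cast_zero]
  have hcinj : Function.Injective c := by
    intro j1 j2 h
    by_contra hne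
    apply hM
    exact Matrix.det_zero_of_row_eq hne (by ext i; simp [hMdef, h])
  -- the kernel
  have h1 : ((Finset.univ.filter (fun x : ι → ZMod p => ∀ j, ∑ i, x i * (A i j : ZMod p) = 0)).card : ℝ) ≤
      |((M.map (Int.cast : ℤ → ℝ)).det : ℝ)| := by
    have h2 : (Finset.univ.filter (fun x : ι → ZMod p => ∀ j, ∑ i, x i * (A i j : ZMod p) = 0)).card ≤
        M.det.natAbs := by
      refine le_trans ?_ (card_ker_le p M hM)
      have h5 : (Finset.univ.filter
          (fun x : ι → ZMod p => ∀ j, ∑ i, x i * (A i j : ZMod p) = 0)).card =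
          Nat.card {x : ι → ZMod p // ∀ j, ∑ i, x i * (A i j : ZMod p) = 0} := by
        rw [Nat.card_eq_fintype_card, Fintype.card_subtype]
      rw [h5]
      refine Nat.card_le_card_of_injective (fun x => ⟨x.1, ?_⟩) ?_
      · rw [LinearMap.mem_ker, Matrix.toLin'_apply]
        ext i
        have := x.2 (c i)
        simp only [Matrix.mulVec, dotProduct, Matrix.map_apply, hMdef, Matrix.of_apply, Pi.zero_apply]
        refine Eq.trans ?_ this
        exact Finset.sum_congr rfl fun j _ => mul_comm _ _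
      · intro x y h
        exact Subtype.ext (congrArg (fun z => z.1) h)
    have h3 : |((M.map (Int.cast : ℤ → ℝ)).det : ℝ)| = (M.det.natAbs : ℝ) := by
      rw [Nat.cast_natAbs, Int.cast_abs, Int.cast_det]
    rw [h3]
    exact_mod_cast h2
  refine h1.trans ?_
  rw [← Matrix.det_transpose]
  refine (hadamard _).trans ?_
  refine Finset.prod_le_prod (fun i _ => Real.sqrt_nonneg _) fun i _ => Real.sqrt_le_sqrt ?_
  have h4 : ∑ j, (M.map (Int.cast : ℤ → ℝ))ᵀ i j ^ 2 = ∑ j ∈ Finset.univ.image c, (A i j : ℝ) ^ 2 := by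
    rw [Finset.sum_image (fun x _ y _ h => hcinj h)]
    rfl
  rw [h4]
  exact Finset.sum_le_sum_of_subset_of_nonneg (Finset.subset_univ _) (fun j _ _ => sq_nonneg _)

end Pool.Agent.T9h69.SR
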