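import Mathlib
import Pool.Agent.T9h59.SR.Spec3

/-!
Piece P2 for helper59 (MP_a3a416_nt): the rank of the generators of the ideal of the vectors which vanish at
the primitive roots of unity.

Author: helper69.
-/

set_option autoImplicit false

namespace Pool.Agent.T9h69.SR

open Finset
open Pool.Agent.T9h59.SR (GG GI)

/-- the vector of a generator -/
noncomputable def gv (e : ℕ) (x : ℕ × ℕ) : Fin e → ℂ := fun j => ((GG e x j : ℤ) : ℂ)

theorem mem_span (e : ℕ) (he : 1 ≤ e) (ζ : ℂ) (hζ : IsPrimitiveRoot ζ e) (m : Fin e)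
    (hm : ¬ e.Coprime (m : ℕ)) :
    (fun j : Fin e => (ζ ^ (m : ℕ)) ^ (j : ℕ)) ∈
      Submodule.span ℂ ((gv e) '' (GI e : Set (ℕ × ℕ))) := by
  obtain ⟨ℓ, hℓ, hℓe, hℓm⟩ := Nat.Prime.not_coprime_iff_dvd.mp hm
  obtain ⟨d, hd⟩ := hℓe
  obtain ⟨m', hm'⟩ := hℓm
  have hdpos : 0 < d := by
    rcases Nat.eq_zero_or_pos d with h | h
    · subst h; omega
    · exact h
  have hed : e / ℓ = d := by rw [hd]; exact Nat.mul_div_cancel_left d hℓ.pos
  have h1 : (fun j : Fin e => (ζ ^ (m : ℕ)) ^ (j : ℕ)) =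
      ∑ c ∈ range d, (ζ ^ (m : ℕ)) ^ c • gv e (ℓ, c) := by
    ext j
    rw [Finset.sum_apply]
    have h2 : ∀ c ∈ range d, ((ζ ^ (m : ℕ)) ^ c • gv e (ℓ, c)) j =
        if (j : ℕ) % d = c then (ζ ^ (m : ℕ)) ^ c else 0 := by
      intro c _
      simp only [Pi.smul_apply, smul_eq_mul, gv, GG, hed]
      split_ifs <;> simp
    rw [Finset.sum_congr rfl h2, Finset.sum_ite_eq, if_pos (mem_range.mpr (Nat.mod_lt _ hdpos))]
    have h3 : (ζ ^ (m : ℕ)) ^ d = 1 := by
      rw [← pow_mul, hm']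
      have : ℓ * m' * d = e * m' := by rw [hd]; ring
      rw [this, pow_mul, hζ.pow_eq_one, one_pow]
    conv_lhs => rw [← Nat.mod_add_div (j : ℕ) d]
    rw [pow_add, pow_mul (ζ ^ (m : ℕ)) d, h3, one_pow, mul_one]
  rw [h1]
  refine Submodule.sum_mem _ fun c hc => Submodule.smul_mem _ _ (Submodule.subset_span ⟨(ℓ, c), ?_, rfl⟩)
  have hc' := mem_range.mp hc
  rw [Finset.mem_coe, GI, mem_filter, mem_product, Nat.mem_primeFactors, mem_range]
  refine ⟨⟨⟨hℓ, ⟨d, hd⟩, by omega⟩, ?_⟩, by rw [hed]; exact hc'⟩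
  calc c < d := hc'
    _ ≤ ℓ * d := Nat.le_mul_of_pos_left d hℓ.pos
    _ = e := hd.symm

theorem stP2 : Pool.Agent.T9h59.SR.StP2 := by
  intro e he
  classical
  have he0 : e ≠ 0 := by omega
  obtain ⟨ζ, hζ⟩ : ∃ ζ : ℂ, IsPrimitiveRoot ζ e := ⟨_, Complex.isPrimitiveRoot_exp e he0⟩
  set S : Set (Fin e → ℂ) := (gv e) '' (GI e : Set (ℕ × ℕ)) with hS
  -- the independent vectors
  have hdet : (Matrix.vandermonde (fun m : Fin e => ζ ^ (m : ℕ))).det ≠ 0 := by
    rw [Matrix.det_vandermonde_ne_zero_iff]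
    intro a b hab
    exact Fin.ext (hζ.pow_inj a.2 b.2 hab)
  have hli : LinearIndependent ℂ (fun m : Fin e => fun j : Fin e => (ζ ^ (m : ℕ)) ^ (j : ℕ)) :=
    Matrix.linearIndependent_rows_iff_isUnit.mpr
      ((Matrix.isUnit_iff_isUnit_det _).mpr (isUnit_iff_ne_zero.mpr hdet))
  have hli2 : LinearIndependent ℂ (fun m : {m : Fin e // ¬ e.Coprime (m : ℕ)} =>
      fun j : Fin e => (ζ ^ ((m : Fin e) : ℕ)) ^ (j : ℕ)) := hli.comp _ Subtype.val_injective
  have hr : Fintype.card {m : Fin e // ¬ e.Coprime (m : ℕ)} ≤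
      Module.finrank ℂ (Submodule.span ℂ S) := by
    rw [← finrank_span_eq_card hli2]
    apply Submodule.finrank_mono
    rw [Submodule.span_le]
    rintro _ ⟨m, rfl⟩
    exact mem_span e he ζ hζ m m.2
  have hcard : e ≤ Fintype.card {m : Fin e // ¬ e.Coprime (m : ℕ)} + Nat.totient e := by
    rw [Fintype.card_subtype_compl, Fintype.card_fin, Fintype.card_subtype]
    have : (univ.filter (fun m : Fin e => e.Coprime (m : ℕ))).card = Nat.totient e := by
      rw [Nat.totient_eq_card_coprime]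
      refine Finset.card_bij (fun m _ => (m : ℕ)) ?_ ?_ ?_
      · intro m hm
        exact mem_filter.mpr ⟨mem_range.mpr m.2, (mem_filter.mp hm).2⟩
      · intro a _ b _ h
        exact Fin.ext h
      · intro b hb
        exact ⟨⟨b, mem_range.mp (mem_filter.mp hb).1⟩,
          mem_filter.mpr ⟨mem_univ _, (mem_filter.mp hb).2⟩, rfl⟩
    rw [this]
    omega
  obtain ⟨f, hf, -, hfli⟩ := Submodule.exists_fun_fin_finrank_span_eq ℂ S
  have hf' : ∀ i, ∃ x ∈ GI e, gv e x = f i := fun i => by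
    obtain ⟨x, hx, h⟩ := hf i
    exact ⟨x, hx, h⟩
  choose g hg hgf using hf'
  have hginj : Function.Injective g := by
    intro a b hab
    apply hfli.injective
    rw [← hgf a, ← hgf b, hab]
  refine ⟨univ.image g, ?_, ?_, ?_⟩
  · intro x hx
    obtain ⟨i, _, rfl⟩ := mem_image.mp hx
    exact hg i
  · rw [card_image_of_injective _ hginj, card_univ, Fintype.card_fin]
    omega
  · let E : Fin (Module.finrank ℂ (Submodule.span ℂ S)) ≃ (univ.image g : Finset (ℕ × ℕ)) :=
      Equiv.ofBijective (fun i => ⟨g i, mem_image_of_mem g (mem_univ i)⟩) (by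
        constructor
        · intro a b h
          exact hginj (congrArg Subtype.val h)
        · rintro ⟨x, hx⟩
          obtain ⟨i, _, hi⟩ := mem_image.mp hx
          exact ⟨i, Subtype.ext hi⟩)
    rw [← linearIndependent_equiv E]
    have : (fun x : (univ.image g : Finset (ℕ × ℕ)) => fun j : Fin e => ((GG e x.1 j : ℤ) : ℂ)) ∘ E = f := by
      funext i
      exact hgf i
    rw [this]
    exact hfli

end Pool.Agent.T9h69.SR
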